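import Pool.Agent.Helper70.Isg.Goals2

/-!
# MP_600500_pr, packet COUP
-/

open MeasureTheory Filter Topology

noncomputable section

namespace Pool.Agent.Helper14.Isg

open Pool.Agent.Helper70.Isg

variable {d : ℕ}

lemma gsum_congr {L L' : ℕ → ℝ} : ∀ (k : ℕ), (∀ i < k, L i = L' i) → gsum L k = gsum L' k
  | 0, _ => rfl
  | k + 1, h => by
      have h1 := gsum_congr k (fun i hi => h i (by omega))
      rw [gsum, gsum, h1, h k (by omega)]

lemma gbit_congr {L L' : ℕ → ℝ} (k : ℕ) (h : ∀ i ≤ k, L i = L' i) : gbit L k = gbit L' k := by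
  unfold gbit
  rw [gsum_congr k (fun i hi => h i hi.le), h k le_rfl]

lemma glue_congr (Λ : Finset (Site d)) (τ : Λ → Bool) (η η' : Cfg d)
    (h : ∀ v ∉ Λ, η v = η' v) : glue Λ τ η = glue Λ τ η' := by
  funext v
  unfold glue
  by_cases hv : v ∈ Λ
  · rw [dif_pos hv, dif_pos hv]
  · rw [dif_neg hv, dif_neg hv, h v hv]

lemma ev_congr (β : ℝ) (Λ : Finset (Site d)) (η η' : Cfg d) (f : Cfg d → ℝ)
    (h : ∀ v ∉ Λ, η v = η' v) : ev β Λ η f = ev β Λ η' f := by
  unfold ev pf
  have h1 : ∀ τ : Λ → Bool, glue Λ τ η = glue Λ τ η' := fun τ => glue_congr Λ τ η η' h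
  simp only [h1]

lemma low_congr (β : ℝ) (v : Site d) (r : ℕ) (P : Site d → Bool) (s : Bool) (a a' : Cfg d)
    (h : ∀ u ∈ ball v r, P u = true → a u = a' u) : low β v r P s a = low β v r P s a' := by
  unfold low
  apply ev_congr
  intro u hu
  by_cases hb : u ∈ ball v r
  · rw [if_pos hb, if_pos hb]
    apply h u hb
    by_contra hP
    apply hu
    rw [Finset.mem_filter]
    exact ⟨hb, by simpa using hP⟩
  · rw [if_neg hb, if_neg hb]

lemma ball_mono (hB : S_BASIC) (v : Site d) {m n : ℕ} (h : m ≤ n) : ball v m ⊆ ball v n := by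
  intro u hu
  have h1 := (hB d).2.2.2.1
  rw [h1] at hu ⊢
  omega

lemma kbit_congr (hB : S_BASIC) (β : ℝ) (K : ℕ) (l : Site d → ℕ) (v : Site d) (k : ℕ)
    (a a' : Cfg d) (h : ∀ u ∈ ball v (K * (k + 1)), prb l u v = true → a u = a' u) :
    kbit β K l v k a = kbit β K l v k a' := by
  unfold kbit
  apply gbit_congr
  intro i hi
  apply low_congr
  intro u hu hP
  exact h u (ball_mono hB v (Nat.mul_le_mul_left K (by omega)) hu) hP

open Classical in
lemma prb_iff {l : Site d → ℕ} {u v : Site d} :
    prb l u v = true ↔ (l u < l v ∨ (l u = l v ∧ toLex u < toLex v)) := by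
  unfold prb
  exact decide_eq_true_iff

lemma prb_trans {l : Site d → ℕ} {u v w : Site d} (h1 : prb l u v = true) (h2 : prb l v w = true) :
    prb l u w = true := by
  rw [prb_iff] at *
  rcases h1 with h1 | ⟨h1, h1'⟩ <;> rcases h2 with h2 | ⟨h2, h2'⟩
  · left; omega
  · left; omega
  · left; omega
  · right
    exact ⟨by omega, lt_trans h1' h2'⟩

lemma prb_irrefl {l : Site d → ℕ} {u : Site d} : prb l u u ≠ true := by
  rw [Ne, prb_iff]
  rintro (h | ⟨-, h⟩)
  · exact lt_irrefl _ h
  · exact lt_irrefl _ h

theorem pf_COUP (hB : S_BASIC) : S_COUP := by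
  classical
  intro d β K L Λ y v R X hG hΛ hX
  have hmem := (hB d).2.2.2.1
  -- the dependency set
  have hD : ∀ w, Relation.ReflTransGen (stp K y) v w →
      ball w (K * ((y w).2 + 1)) ⊆ ball v R := by
    intro w hw u hu
    rw [hmem]
    exact hG w hw u hu
  have hself : ∀ (w : Site d) (n : ℕ), w ∈ ball w n := by
    intro w n
    rw [hmem, sub_self]
    rw [((hB d).2.2.2.2.2.2.1 0).2 rfl]
    exact Nat.zero_le _
  have hXk : ∀ w, Relation.ReflTransGen (stp K y) v w →
      X w = kbit β K (lab y) w (y w).2 X := by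
    intro w hw
    have hwΛ : w ∈ Λ := hΛ (hD w hw (hself w _))
    rw [hX w hwΛ]
    unfold fbit kbit
    apply gbit_congr
    intro i hi
    unfold lfin
    rw [if_pos]
    exact ((ball_mono hB w (Nat.mul_le_mul_left K (by omega))).trans (hD w hw)).trans hΛ
  -- the claim
  have claim : ∀ (n : ℕ) (w : Site d), Relation.ReflTransGen (stp K y) v w →
      ((ball v R).filter (fun u => prb (lab y) u w = true)).card = n →
      ∀ᶠ m in atTop, itr β K y m w = X w := by
    intro n
    induction n using Nat.strong_induction_on with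
    | _ n ih =>
      intro w hw hcard
      have h1 : ∀ u ∈ ball w (K * ((y w).2 + 1)),
          ∀ᶠ m in atTop, prb (lab y) u w = true → itr β K y m u = X u := by
        intro u hu
        by_cases hp : prb (lab y) u w = true
        · have hu' : Relation.ReflTransGen (stp K y) v u := hw.tail ⟨hu, hp⟩
          have hlt : ((ball v R).filter (fun x => prb (lab y) x u = true)).card < n := by
            rw [← hcard]
            apply Finset.card_lt_card
            rw [Finset.ssubset_iff_of_subset]
            · refine ⟨u, ?_, ?_⟩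
              · rw [Finset.mem_filter]
                exact ⟨hD w hw hu, hp⟩
              · rw [Finset.mem_filter]
                exact fun h => prb_irrefl h.2
            · intro x hx
              rw [Finset.mem_filter] at hx ⊢
              exact ⟨hx.1, prb_trans hx.2 hp⟩
          filter_upwards [ih _ hlt u hu' rfl] with m hm _
          exact hm
        · exact Eventually.of_forall fun m h => absurd h hp
      have h2 := (Filter.eventually_all_finset _).2 h1
      obtain ⟨N, hN⟩ := eventually_atTop.1 h2
      rw [eventually_atTop]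
      refine ⟨N + 1, fun m hm => ?_⟩
      obtain ⟨m', rfl⟩ : ∃ m', m = m' + 1 := ⟨m - 1, by omega⟩
      have h3 := hN m' (by omega)
      rw [hXk w hw]
      show kbit β K (lab y) w (y w).2 (itr β K y m') = _
      apply kbit_congr hB
      intro u hu hp
      exact h3 u hu hp
  have hfin := claim _ v Relation.ReflTransGen.refl rfl
  obtain ⟨N, hN⟩ := eventually_atTop.1 hfin
  unfold phi2
  cases hXv : X v with
  | true =>
    symm
    rw [decide_eq_true_iff]
    exact ⟨N, fun n hn => by rw [hN n hn, hXv]⟩
  | false =>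
    symm
    rw [decide_eq_false_iff_not]
    rintro ⟨N', hN'⟩
    have h1 := hN' (max N N') (le_max_right _ _)
    have h2 := hN (max N N') (le_max_left _ _)
    rw [h1, hXv] at h2
    exact absurd h2 (by simp)

end Pool.Agent.Helper14.Isg
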